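import Pool.Agent.Helper25_TD.Oracle

/-!
# Maps of r.e. sets which respect uniform reducibility of sequences (MP_f28000_lc): lemmas
-/

set_option autoImplicit false

open Pool.Agent.Helper25TD

namespace Pool.Agent.SQM

/-- the characteristic function of a set -/
noncomputable def bo (A : ℕ → Prop) : ℕ → Bool := by
  classical
  exact fun n => decide (A n)

theorem bo_eq_true {A : ℕ → Prop} {n : ℕ} : bo A n = true ↔ A n := by
  unfold bo
  simp

theorem bo_congr {A B : ℕ → Prop} {m n : ℕ} (h : A m ↔ B n) : bo A m = bo B n := by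
  rw [Bool.eq_iff_iff, bo_eq_true, bo_eq_true]
  exact h

/-- many-one reductions -/
theorem sub_le {A B : ℕ → Prop} {f : ℕ → ℕ} (hf : Primrec f) (h : ∀ n, A n ↔ B (f n)) :
    TLE (bo A) (bo B) := by
  have h1 := TLE.sub (x := bo B) hf
  have h2 : (fun n => bo B (f n)) = bo A := by
    funext n
    exact bo_congr (h n).symm
  rwa [h2] at h1

/-- a Boolean combination of three values -/
theorem tle_sel {x y z w J : ℕ → Bool} {f g : ℕ → ℕ} (hf : Primrec f) (hg : Primrec g)
    (hx : TLE x J) (hy : TLE y J) (hz : TLE z J)
    (h : ∀ n, w n = if x (f n) = true then y (g n) else z (g n)) : TLE w J := by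
  refine TR.to_le ?_
  have h1 : TR J fun n => (x (f n)).toNat := (TR.of_le hx).comp (TR.prim hf)
  have h2 : TR J fun n => (y (g n)).toNat := (TR.of_le hy).comp (TR.prim hg)
  have h3 : TR J fun n => (z (g n)).toNat := (TR.of_le hz).comp (TR.prim hg)
  have hsel : Primrec fun m : ℕ => if (Nat.unpair m).1 = 1 then
      (Nat.unpair (Nat.unpair m).2).1 else (Nat.unpair (Nat.unpair m).2).2 := by
    refine Primrec.ite ?_ ?_ ?_
    · exact Primrec.eq.comp (Primrec.fst.comp Primrec.unpair) (Primrec.const 1)
    · exact Primrec.fst.comp (Primrec.unpair.comp (Primrec.snd.comp Primrec.unpair))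
    · exact Primrec.snd.comp (Primrec.unpair.comp (Primrec.snd.comp Primrec.unpair))
  have h4 := (TR.prim (x := J) hsel).comp (h1.pair (h2.pair h3))
  refine Nat.RecursiveIn.of_eq h4 fun n => ?_
  simp only [Nat.unpair_pair]
  rw [h n]
  cases hxn : x (f n) <;> simp

theorem tle_const (b : Bool) (J : ℕ → Bool) : TLE (fun _ => b) J := by
  refine TR.to_le ?_
  exact TR.prim (Primrec.const b.toNat)

theorem bo_false_le (J : ℕ → Bool) : TLE (bo fun _ => False) J := by
  have h : bo (fun _ => False) = fun _ => false := by
    funext n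
    unfold bo
    simp
  rw [h]
  exact tle_const false J

/-- the join of two sets -/
theorem bo_join {A B : ℕ → Prop} {P : ℕ → Prop}
    (hP : ∀ n, P n ↔ if n % 2 = 0 then A (n / 2) else B (n / 2)) :
    bo P = join (bo A) (bo B) := by
  funext n
  rw [Bool.eq_iff_iff, bo_eq_true, hP]
  unfold join
  split_ifs
  · exact bo_eq_true.symm
  · exact bo_eq_true.symm

/-- conjunctions of r.e. predicates -/
theorem re_and {p q : ℕ → Prop} (hp : REPred p) (hq : REPred q) : REPred fun n => p n ∧ q n := by
  have h : Partrec fun n : ℕ => (Part.assert (p n) fun _ => Part.some ()).bind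
      fun _ => Part.assert (q n) fun _ => Part.some () :=
    Partrec.bind hp (Partrec.comp hq Computable.fst)
  refine h.of_eq fun n => ?_
  by_cases h1 : p n
  · by_cases h2 : q n
    · rw [Part.assert_pos h1, Part.bind_some, Part.assert_pos h2, Part.assert_pos ⟨h1, h2⟩]
    · rw [Part.assert_pos h1, Part.bind_some, Part.assert_neg h2,
        Part.assert_neg fun h => h2 h.2]
  · rw [Part.assert_neg h1, Part.bind_none, Part.assert_neg fun h => h1 h.1]

theorem re_comp {p : ℕ → Prop} {f : ℕ → ℕ} (hp : REPred p) (hf : Computable f) :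
    REPred fun n => p (f n) := Partrec.comp hp hf

theorem re_eq_zero {f : ℕ → ℕ} (hf : Primrec f) : REPred fun n => f n = 0 := by
  have h : PrimrecPred fun n => f n = 0 := Primrec.eq.comp hf (Primrec.const 0)
  exact h.computablePred.to_re

/-- the set computed by a computable set is computable from everything -/
theorem tle_of_computable {A : ℕ → Prop} (h : TLE (bo A) (bo fun _ => False)) (J : ℕ → Bool) :
    TLE (bo A) J := h.trans (bo_false_le J)

end Pool.Agent.SQM
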